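import Pool.Agent.Helper50.HT.Stmts2
import Pool.Agent.Helper24.HT.PTC
import Pool.Agent.Helper40.HT.SDF
import Pool.Agent.Helper38.HT.KD2
import Pool.Agent.Helper87.HT.KLI
import Pool.Agent.Helper90.HT.WBD
import Pool.Agent.Helper18.HT.IAB
import Pool.Agent.Helper9.HT.LAT
import Pool.Agent.Helper43.HT.EXA
import Pool.Agent.Helper3.HT.CRS
import Pool.Agent.Helper47.HT.FST
import Pool.Agent.Helper55.HT.FTA
import Pool.Agent.Helper30.HT.NUM
import Pool.Agent.Helper41.HT.ATM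
import Pool.Agent.Helper9.HT.TRX
import Pool.Agent.Helper37.HT.TLK
import Pool.Agent.Helper55.HT.TRP
import Pool.Agent.Helper90.HT.TLF

/-!
# Heavy nuclei, any number of them: part A assembled
-/

set_option autoImplicit false

namespace Pool.Agent.Helper50.HT

open Pool.Agent Pool.Agent.Helper95 Pool.Agent.Helper95.PW Pool.Agent.Helper95.LN
open Pool.Agent.Helper26.HN

/-- the trial state -/
theorem partA0 (TRE : ST_TRE) (ORB : ST_ORB) (PT1 : ST_PT1) (PT2 : ST_PT2) (PHC : ST_PHC)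
    (PK4 : ST_PK4) : ST_TRX := by
  have PTC : ST_PTC := Helper24.HT.PTC TRE ORB PT1 PT2 PHC
  have WBD : ST_WBD := Helper90.HT.WBD Helper40.HT.SDF Helper38.HT.KD2 Helper87.HT.KLI
  have IAB : ST_IAB := Helper18.HT.IAB WBD
  have FST : ST_FST := Helper47.HT.FST Helper43.HT.exa Helper9.HT.LAT Helper3.HT.CRS
  have ATM : ST_ATM := Helper41.HT.ATM FST Helper55.HT.FTA Helper30.HT.NUM
  exact Helper9.HT.TRX PTC ATM IAB PK4

/-- lower bound of the kinetic energy of ground states -/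
theorem partA (TRE : ST_TRE) (ORB : ST_ORB) (PT1 : ST_PT1) (PT2 : ST_PT2) (PHC : ST_PHC)
    (PK4 : ST_PK4) (AED : ST_AED) (QHM : ST_QHM) (INTM : ST_INTM) (APXM : ST_APXM)
    (LMTM : ST_LMTM) (INZ : ST_INZ) (NEZ : ST_NEZ) (ESB : ST_ESB) : HV.ST_TLZ :=
  Helper90.HT.TLF (Helper55.HT.TRP (partA0 TRE ORB PT1 PT2 PHC PK4))
    (Helper37.HT.TLK ESB AED NEZ INZ QHM INTM) APXM LMTM

end Pool.Agent.Helper50.HT
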