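import Pool.Agent.Helper95.LN.Stmts

/-!
# Heavy nuclei, any number of them: trial state (part A)

`N` electrons of a neutral atom are put on small spheres (`orb a` around its own centre, so that
by Newton's theorem all Coulomb energies are those of point charges) at the points `P k` of an
arrangement which is symmetric under `v ↦ -v` (nucleus at `0`).
-/

set_option autoImplicit false

namespace Pool.Agent.Helper50.HT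

open MeasureTheory Filter Pool.Agent.Helper95 Pool.Agent.Helper95.PW Pool.Agent.Helper95.LN

/-- row PTC (TRE, ORB, PT1, PT2, PHC): `f_k y = orb (a k) (y - p k)`; disjoint supports since
`3 (a k + a l) ≤ nr (p k - p l)`; `orb a y ^ 2 = et a y / kap`; the attraction of a nucleus at the
centre `p k = X j` is dropped (`1 / nr 0 = 0`). As Helper89/LN/EB.lean. -/
def ST_PTC : Prop := ∃ C : ℝ, 0 < C ∧ ∀ (n M : ℕ) (X : Fin M → R3) (Z : Fin M → ℝ) (E : ℝ)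
  (p : Fin n → R3) (a : Fin n → ℝ), (∀ k, 0 < a k) → (∀ j, 0 ≤ Z j) →
  (∀ k l, k ≠ l → 3 * (a k + a l) ≤ nr (p k - p l)) →
  (∀ k j, p k = X j ∨ 2 * a k ≤ nr (p k - X j)) → LowM n X Z E →
  E ≤ C * (∑ k, 1 / a k ^ 2) - (∑ k, ∑ j, Z j / nr (p k - X j)) +
    ∑ k, ∑ l, if k < l then 1 / nr (p k - p l) else 0

/-- row SDF (second difference): mean value theorem twice -/
def ST_SDF : Prop := ∀ (f f' f'' : ℝ → ℝ) (B : ℝ),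
  (∀ t, -1 ≤ t → t ≤ 1 → HasDerivAt f (f' t) t) →
  (∀ t, -1 ≤ t → t ≤ 1 → HasDerivAt f' (f'' t) t) → (∀ t, -1 ≤ t → t ≤ 1 → |f'' t| ≤ B) →
  |f 1 + f (-1) - 2 * f 0| ≤ 2 * B

/-- second derivative of `t ↦ 1 / nr (u + t p)` at `0` -/
noncomputable def K2 (u p : R3) : ℝ :=
  3 * (u 0 * p 0 + u 1 * p 1 + u 2 * p 2) ^ 2 / nr u ^ 5 -
    (p 0 ^ 2 + p 1 ^ 2 + p 2 ^ 2) / nr u ^ 3

/-- row KD2: derivatives of `t ↦ 1 / nr (u + t p)` away from `0` -/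
def ST_KD2 : Prop := ∀ (u p : R3) (t : ℝ), nr (u + t • p) ≠ 0 →
  HasDerivAt (fun s : ℝ => 1 / nr (u + s • p))
    (-(((u 0 + t * p 0) * p 0 + (u 1 + t * p 1) * p 1 + (u 2 + t * p 2) * p 2) /
      nr (u + t • p) ^ 3)) t ∧
  HasDerivAt (fun s : ℝ => -(((u 0 + s * p 0) * p 0 + (u 1 + s * p 1) * p 1 +
    (u 2 + s * p 2) * p 2) / nr (u + s • p) ^ 3)) (K2 (u + t • p) p) t

/-- row KLI: `K2 · p` is Lipschitz far from `0`: with `a = nr u`, `b = nr v`, `q = nr (u - v)`,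
`m = R / 2 ≤ a, b ≤ 2 R`: `|1/a^3 - 1/b^3| ≤ C q / m^4`, `|1/a^5 - 1/b^5| ≤ C q / m^6`,
`|(u·p)^2 - (v·p)^2| ≤ |p|^2 q (a + b)` -/
def ST_KLI : Prop := ∃ C : ℝ, 0 < C ∧ ∀ (u v p : R3) (R : ℝ), 0 < R → R / 2 ≤ nr u →
  nr u ≤ 2 * R → R / 2 ≤ nr v → nr v ≤ 2 * R →
  |K2 u p - K2 v p| ≤ C * nr p ^ 2 * nr (u - v) / R ^ 4

/-- sum of the values of `1 / nr` for two symmetric pairs of opposite charges -/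
noncomputable def W2 (R p q : R3) : ℝ :=
  1 / nr (R + p - q) + 1 / nr (R + p + q) + 1 / nr (R - p - q) + 1 / nr (R - p + q) -
    2 * (1 / nr (R + p) + 1 / nr (R - p)) - 2 * (1 / nr (R - q) + 1 / nr (R + q)) +
    4 * (1 / nr R)

/-- row WBD (SDF, KD2, KLI): `W2 = F (R - q) + F (R + q) - 2 F R`,
`F w = 1/nr (w + p) + 1/nr (w - p) - 2/nr w`; `|F (R ± q) - F R| ≤ 2 sup_t |K2 (R ± q + t p) p -
K2 (R + t p) p|` by SDF for `f t = 1 / nr (R ± q + t p) - 1 / nr (R + t p)` -/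
def ST_WBD : Prop := ∃ C : ℝ, 0 < C ∧ ∀ (R p q : R3) (D : ℝ), 0 < D → nr p ≤ D → nr q ≤ D →
  4 * D ≤ nr R → |W2 R p q| ≤ C * D ^ 3 / nr R ^ 4

/-- row IAB (WBD): the Coulomb energy of two neutral symmetric atoms. `g p q = 1/nr (R + p - q)`;
the energy is `∑ p, ∑ q, (g p q - g 0 q - g p 0 + g 0 0) = 1/4 ∑ p, ∑ q, W2 R p q` by the symmetry
(used for `h = g · q` and for `h = g p ·`) -/
def ST_IAB : Prop := ∃ C : ℝ, 0 < C ∧ ∀ (N N' : ℕ) (P : Fin N → R3) (Q : Fin N' → R3) (R : R3)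
  (D : ℝ), 0 < D → (∀ k, nr (P k) ≤ D) → (∀ k, nr (Q k) ≤ D) → 4 * D ≤ nr R →
  (∀ h : R3 → ℝ, ∑ k, h (P k) = ∑ k, h (-P k)) → (∀ h : R3 → ℝ, ∑ k, h (Q k) = ∑ k, h (-Q k)) →
  |(∑ k, ∑ l, 1 / nr (R + P k - Q l)) - N * (∑ l, 1 / nr (R - Q l)) -
    N' * (∑ k, 1 / nr (R + P k)) + N * N' / nr R| ≤ C * N * N' * D ^ 3 / nr R ^ 4

/-- row LAT: integer points at sup distance `m` from `v`: at most `26 m^2`; `nr ≥` sup norm.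
Induction on `K`, or sum over the box `Fintype.piFinset (fun _ => Finset.Icc (-K) K)` -/
def ST_LAT : Prop := ∀ (K : ℕ) (S : Finset (Fin 3 → ℤ)) (v : Fin 3 → ℤ),
  (∀ w ∈ S, ∀ i, |w i - v i| ≤ (K : ℤ)) →
  ∑ w ∈ S, (if w = v then 0 else 1 / nr (fun i => ((w i : ℝ) - (v i : ℝ)))) ≤ 80 * (K : ℝ) ^ 2

/-- inner points: all coordinates positive or all negative -/
def InA (K : ℕ) (v : Fin 3 → ℤ) : Prop :=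
  (∀ i, 1 ≤ v i ∧ v i ≤ K) ∨ (∀ i, -(K : ℤ) ≤ v i ∧ v i ≤ -1)

/-- outer points: signs `+ + -` or `- - +` -/
def InB (K : ℕ) (v : Fin 3 → ℤ) : Prop :=
  (1 ≤ v 0 ∧ v 0 ≤ K ∧ 1 ≤ v 1 ∧ v 1 ≤ K ∧ -(K : ℤ) ≤ v 2 ∧ v 2 ≤ -1) ∨
    (-(K : ℤ) ≤ v 0 ∧ v 0 ≤ -1 ∧ -(K : ℤ) ≤ v 1 ∧ v 1 ≤ -1 ∧ 1 ≤ v 2 ∧ v 2 ≤ K)

/-- row EXA: existence of the sets (`m ≤ K^3` points and their negatives) -/
def ST_EXA : Prop := ∀ (K m : ℕ), m ≤ K ^ 3 →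
  (∃ A : Finset (Fin 3 → ℤ), A.card = 2 * m ∧ (∀ v ∈ A, InA K v) ∧ ∀ v ∈ A, -v ∈ A) ∧
  ∃ B : Finset (Fin 3 → ℤ), B.card = 2 * m ∧ (∀ v ∈ B, InB K v) ∧ ∀ v ∈ B, -v ∈ B

/-- the point of space -/
noncomputable def sc (s : ℝ) (v : Fin 3 → ℤ) : R3 := fun i => s * (v i : ℝ)

/-- row CRS: `1 / nr (sc s v - sc t w) ≤ 1 / (t |w i|)` for a coordinate `i ∈ {0, 2}` where the
signs of `v` and `w` are opposite; `∑_(c = 1)^L 1 / c ≤ 2 sqrt L` -/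
def ST_CRS : Prop := ∀ (K L : ℕ) (s t : ℝ) (v : Fin 3 → ℤ) (B : Finset (Fin 3 → ℤ)), 0 < s →
  0 < t → InA K v → (∀ w ∈ B, InB L w) →
  ∑ w ∈ B, 1 / nr (sc s v - sc t w) ≤ 4 * (L : ℝ) ^ 2 * Real.sqrt L / t

/-- row FST (EXA, LAT, CRS): the arrangement as a finite set of points `S = sc s A ∪ sc t B ∪ ({0})`
with radii `r = s / 6` on `sc s A` and at `0`, `t / 6` on `sc t B` -/
def ST_FST : Prop := ∃ C : ℝ, 0 < C ∧ ∀ (K L m e : ℕ) (s t : ℝ), 0 < s → s ≤ t → 1 ≤ K →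
  1 ≤ L → K ^ 3 ≤ m → m ≤ K ^ 3 + L ^ 3 → e ≤ 1 →
  ∃ (S : Finset R3) (r : R3 → ℝ), S.card = 2 * m + e ∧ (∀ v ∈ S, -v ∈ S) ∧
    (∀ v ∈ S, 0 < r v ∧ r v ≤ t) ∧ (∀ v ∈ S, nr v ≤ 2 * (s * K) + 2 * (t * L)) ∧
    (∀ v ∈ S, v = 0 ∨ 2 * r v ≤ nr v) ∧
    (∀ v ∈ S, ∀ w ∈ S, v ≠ w → 3 * (r v + r w) ≤ nr (v - w)) ∧
    ∑ v ∈ S, 1 / r v ^ 2 ≤ C * ((K : ℝ) ^ 3 / s ^ 2 + m / t ^ 2) ∧
    (K : ℝ) ^ 2 / s ≤ ∑ v ∈ S, 1 / nr v ∧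
    ∑ v ∈ S, ∑ w ∈ S, (if v = w then 0 else 1 / nr (v - w)) ≤
      C * ((K : ℝ) ^ 5 / s + (K : ℝ) ^ 3 * ((L : ℝ) ^ 2 * Real.sqrt L) / t + (L : ℝ) ^ 5 / t)

/-- a good arrangement of the electrons of a neutral atom -/
structure Atom (C1 D e : ℝ) (N : ℕ) (P : Fin N → R3) (a : Fin N → ℝ) : Prop where
  pos : ∀ k, 0 < a k
  small : ∀ k, a k ≤ D
  inD : ∀ k, nr (P k) ≤ D
  sep : ∀ k l, k ≠ l → 3 * (a k + a l) ≤ nr (P k - P l)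
  nuc : ∀ k, P k = 0 ∨ 2 * a k ≤ nr (P k)
  sym : ∀ h : R3 → ℝ, ∑ k, h (P k) = ∑ k, h (-P k)
  en : C1 * (∑ k, 1 / a k ^ 2) - N * (∑ k, 1 / nr (P k)) +
    (∑ k, ∑ l, if k < l then 1 / nr (P k - P l) else 0) ≤ e

/-- row FTA: from a finite set to `Fin N` (`Finset.equivFin`) -/
def ST_FTA : Prop := ∀ (C1 D e : ℝ) (N : ℕ) (S : Finset R3) (r : R3 → ℝ), S.card = N →
  (∀ v ∈ S, -v ∈ S) → (∀ v ∈ S, 0 < r v ∧ r v ≤ D) → (∀ v ∈ S, nr v ≤ D) →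
  (∀ v ∈ S, v = 0 ∨ 2 * r v ≤ nr v) →
  (∀ v ∈ S, ∀ w ∈ S, v ≠ w → 3 * (r v + r w) ≤ nr (v - w)) →
  C1 * (∑ v ∈ S, 1 / r v ^ 2) - N * (∑ v ∈ S, 1 / nr v) +
    1 / 2 * (∑ v ∈ S, ∑ w ∈ S, if v = w then 0 else 1 / nr (v - w)) ≤ e →
  ∃ (P : Fin N → R3) (a : Fin N → ℝ), Atom C1 D e N P a

/-- row NUM (real numbers only), `x = z^(1/3)`, `K = ⌊η x⌋`, `L = ⌈x⌉`, `s = 1 / (x K)`,
`t = D / (8 L)`, `m = N / 2` (natural division), `e = N % 2`; the main terms are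
`K^3 x (C C1 K^2 x + C K^3 - N)`, all others are `≤ C_D x^(13/2)` -/
def ST_NUM : Prop := ∀ C C1 κ D : ℝ, 0 < C → 0 < C1 → 1 ≤ κ → 0 < D →
  ∃ c x0 : ℝ, 0 < c ∧ 1 ≤ x0 ∧ ∀ (x : ℝ) (N : ℕ), x0 ≤ x → x ^ 3 / κ ≤ N → (N : ℝ) ≤ x ^ 3 →
  ∃ (K L : ℕ) (s t : ℝ), 0 < s ∧ s ≤ t ∧ 1 ≤ K ∧ 1 ≤ L ∧ K ^ 3 ≤ N / 2 ∧
    N / 2 ≤ K ^ 3 + L ^ 3 ∧ t ≤ D ∧ 2 * (s * K) + 2 * (t * L) ≤ D ∧
    C1 * (C * ((K : ℝ) ^ 3 / s ^ 2 + (N / 2 : ℕ) / t ^ 2)) - N * ((K : ℝ) ^ 2 / s) +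
      1 / 2 * (C * ((K : ℝ) ^ 5 / s + (K : ℝ) ^ 3 * ((L : ℝ) ^ 2 * Real.sqrt L) / t +
        (L : ℝ) ^ 5 / t)) ≤ -(c * x ^ 7)

/-- row ATM (FST, FTA, NUM): existence of the arrangement -/
def ST_ATM : Prop := ∀ C1 κ D : ℝ, 0 < C1 → 1 ≤ κ → 0 < D → ∃ c x0 : ℝ, 0 < c ∧ 1 ≤ x0 ∧
  ∀ (x : ℝ) (N : ℕ), x0 ≤ x → x ^ 3 / κ ≤ N → (N : ℝ) ≤ x ^ 3 →
  ∃ (P : Fin N → R3) (a : Fin N → ℝ), Atom C1 D (-(c * x ^ 7)) N P a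

/-- row TRX (PTC, ATM with `D = d / 4`, IAB, PK4): energy of the molecule, `z = x^3`:
`E + nucR ≤ ∑ j, (energy of the atom j) + ∑ i < j, (IAB for R = X i - X j)`; the electrons are
numbered by `finSigmaFinEquiv` (as in Helper89/LN/EB.lean), `∑ j ≠ i, 1/nr (X i - X j)^4 ≤ C / d^4` -/
def ST_TRX : Prop := ∀ κ d : ℝ, 1 ≤ κ → 0 < d → ∃ c x0 : ℝ, 0 < c ∧ 1 ≤ x0 ∧ ∀ (n M : ℕ)
  (X : Fin M → R3) (Z : Fin M → ℕ) (E x : ℝ), x0 ≤ x → Sep X d → ∑ j, Z j = n →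
  (∀ j, x ^ 3 / κ ≤ Z j) → (∀ j, (Z j : ℝ) ≤ x ^ 3) → LowM n X (fun j => (Z j : ℝ)) E →
  E + nucR X (fun j => (Z j : ℝ)) ≤ -(c * M * x ^ 7)

end Pool.Agent.Helper50.HT
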