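import Pool.Agent.Helper50.HT.Stmts
import Pool.Agent.Helper26.HN.Stmts
import Pool.Agent.Helper95.HV.Stmts

/-!
# Heavy nuclei, any number of them: lower bound of the kinetic energy (part A, second sheet)
-/

set_option autoImplicit false

namespace Pool.Agent.Helper50.HT

open MeasureTheory Filter Pool.Agent.Helper95 Pool.Agent.Helper95.PW Pool.Agent.Helper95.LN
open Pool.Agent.Helper26.HN

/-- row TLK (ESB, AED, NEZ, INZ, QHM, INTM; as Helper26's TUZ, Helper21/CF/TLS.lean):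
`kin u + ∑ s, ∫ Vc u^2 = QM u + nucR sq u ≤ (E + nucR) sq u + sqrt (sq u resM) ≤ -(c/2) m + 2`,
`m = M z^(7/3)`; ESB with `b = A z^(-1/3)`, `A = 32 / c`: `(1 + z) / b n sq u ≤ c m / 8`;
NEZ for `near1 X (2 b)` with `K` so large that `C K^(-3/2) (2 A)^(1/2) ≤ c / 16`; `z0` so large
that `2 b ≤ d`, `C' z^2 ≤ c/16 z^(7/3)`, `2 ≤ c/16 z^(7/3)`. So `(1 - K) kin u ≤ -(3/16) c m`. -/
def ST_TLK : Prop := ∀ c d : ℝ, 0 < c → 0 < d → ∃ c' z0 : ℝ, 0 < c' ∧ 1 ≤ z0 ∧ ∀ (n M : ℕ)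
  (X : Fin M → R3) (Z : Fin M → ℝ) (z E : ℝ) (u : Wf n), z0 ≤ z → 1 ≤ M → Nuc n Z →
  (∀ j, Z j ≤ z) → Sep X d → E + nucR X Z ≤ -(c * (M * z ^ (7 / 3 : ℝ))) → Sm u → Anti u →
  1 / 2 ≤ PW.sq u → PW.sq u ≤ 2 → resM X Z E u ≤ 1 → c' * (M * z ^ (7 / 3 : ℝ)) ≤ kin u

/-- row TRP (TRX): the same with `z = x^3` (`x = z^(1/3)`, `x^7 = z^(7/3)`) and the hypotheses of
helper95 -/
def ST_TRP : Prop := ∀ d κ : ℝ, 0 < d → 1 ≤ κ → ∃ c z0 : ℝ, 0 < c ∧ 1 ≤ z0 ∧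
  ∀ (z E : ℝ) (n M : ℕ) (X : Fin M → R3) (Z : Fin M → ℕ), z0 ≤ z → Sep X d →
  Nuc n (fun j => (Z j : ℝ)) → (∀ j, (Z j : ℝ) ≤ z) → (∀ j, z ≤ κ * Z j) →
  LowM n X (fun j => (Z j : ℝ)) E →
  E + nucR X (fun j => (Z j : ℝ)) ≤ -(c * (M * z ^ (7 / 3 : ℝ)))

/-- row TLF (TRP, TLK, APXM, LMTM): the row TLZ of helper95; limit as in `KLC` of
Helper50/HY/BRG.lean -/
def ST_TLF : Prop := HV.ST_TLZ

end Pool.Agent.Helper50.HT
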